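import Pool.Agent.Helper97.Nag.Goals1

/-!
Packet NAGATA-HOD: the regular (dual) criterion: a set of lattice points with enough rows contains an
independent set of the full size.
-/

set_option autoImplicit false

noncomputable section

namespace Pool.Agent.Helper40.Nag.HOD

open Pool.Agent.Helper97.Nag

theorem mem_lnv {S : Finset (ℤ × ℤ)} {s : ℕ} {X : ℤ} (hs : 1 ≤ s) :
    X ∈ lnv S s ↔ s ≤ (S.filter fun q => q.2 = X).card := by
  unfold lnv
  rw [Finset.mem_filter]
  constructor
  · exact fun h => h.2
  · intro h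
    refine ⟨?_, h⟩
    have h1 : 0 < (S.filter fun q => q.2 = X).card := lt_of_lt_of_le hs h
    obtain ⟨q, hq⟩ := Finset.card_pos.1 h1
    rw [Finset.mem_filter] at hq
    exact Finset.mem_image.2 ⟨q, hq.1, hq.2⟩

theorem card_row_erase {S : Finset (ℤ × ℤ)} {q : ℤ × ℤ} (hq : q ∈ S) :
    ((S.erase q).filter fun p => p.2 = q.2).card = (S.filter fun p => p.2 = q.2).card - 1 := by
  have h : (S.erase q).filter (fun p => p.2 = q.2) = (S.filter fun p => p.2 = q.2).erase q := by
    ext p
    simp only [Finset.mem_filter, Finset.mem_erase]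
    tauto
  have h2 : q ∈ S.filter fun p => p.2 = q.2 := Finset.mem_filter.2 ⟨hq, rfl⟩
  rw [h, Finset.card_erase_of_mem h2]

theorem row_erase_ne {S : Finset (ℤ × ℤ)} {q : ℤ × ℤ} {X : ℤ} (hX : X ≠ q.2) :
    ((S.erase q).filter fun p => p.2 = X) = S.filter fun p => p.2 = X := by
  ext p
  simp only [Finset.mem_filter, Finset.mem_erase]
  constructor
  · rintro ⟨⟨-, h1⟩, h2⟩
    exact ⟨h1, h2⟩
  · rintro ⟨h1, h2⟩
    refine ⟨⟨?_, h1⟩, h2⟩
    rintro rfl
    exact hX h2.symm

/-- The choice of the subset. -/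
theorem choose (μ : ℕ → ℕ) (hμ : ∀ s, μ (s + 1) ≤ μ s) : ∀ (n : ℕ) (S : Finset (ℤ × ℤ)),
    S.card = n → (∀ s : ℕ, 1 ≤ s → μ s ≤ (lnv S s).card) →
    ∃ S' ⊆ S, ∀ s : ℕ, 1 ≤ s → (lnv S' s).card = μ s := by
  intro n
  induction n with
  | zero =>
    intro S hS h
    refine ⟨S, subset_rfl, fun s hs => ?_⟩
    have h1 : S = ∅ := Finset.card_eq_zero.1 hS
    have h2 : (lnv S s).card = 0 := by
      rw [h1]; unfold lnv; simp
    have h3 := h s hs
    omega
  | succ n ih =>
    intro S hS h
    by_cases hle : ∀ s : ℕ, 1 ≤ s → (lnv S s).card ≤ μ s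
    · exact ⟨S, subset_rfl, fun s hs => le_antisymm (hle s hs) (h s hs)⟩
    · push Not at hle
      -- the greatest such s
      have hbd : ∀ s : ℕ, 1 ≤ s → μ s < (lnv S s).card → s ≤ S.card := by
        intro s hs h1
        have h2 : 0 < (lnv S s).card := lt_of_le_of_lt (Nat.zero_le _) h1
        obtain ⟨X, hX⟩ := Finset.card_pos.1 h2
        rw [mem_lnv hs] at hX
        exact hX.trans (Finset.card_le_card (Finset.filter_subset _ _))
      classical
      set P : ℕ → Prop := fun s => 1 ≤ s ∧ μ s < (lnv S s).card with hP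
      obtain ⟨s₁, hs₁, hs₁'⟩ := hle
      have hP1 : P s₁ := ⟨hs₁, hs₁'⟩
      set s := Nat.findGreatest P S.card with hsdef
      have hs : P s := Nat.findGreatest_spec (hbd s₁ hs₁ hs₁') hP1
      have hmax : ∀ t, s < t → ¬ P t := by
        intro t ht hPt
        exact Nat.findGreatest_is_greatest ht (hbd t hPt.1 hPt.2) hPt
      obtain ⟨hs1, hs2⟩ := hs
      have h3 : (lnv S (s + 1)).card ≤ μ (s + 1) := by
        by_contra hcon
        exact hmax (s + 1) (Nat.lt_succ_self s) ⟨by omega, by omega⟩
      have h4 : (lnv S (s + 1)).card < (lnv S s).card :=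
        lt_of_le_of_lt (h3.trans (hμ s)) hs2
      obtain ⟨X, hX, hX'⟩ : ∃ X ∈ lnv S s, X ∉ lnv S (s + 1) := by
        by_contra hcon
        push Not at hcon
        exact absurd (Finset.card_le_card (fun X hX => hcon X hX)) (not_le.2 h4)
      rw [mem_lnv hs1] at hX
      rw [mem_lnv (by omega)] at hX'
      have hrow : (S.filter fun p => p.2 = X).card = s := by omega
      obtain ⟨q, hq⟩ := Finset.card_pos.1 (lt_of_lt_of_le hs1 hX)
      rw [Finset.mem_filter] at hq
      obtain ⟨hqS, rfl⟩ := hq
      have hcard : (S.erase q).card = n := by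
        rw [Finset.card_erase_of_mem hqS, hS]; rfl
      have hnew : ∀ t : ℕ, 1 ≤ t → μ t ≤ (lnv (S.erase q) t).card := by
        intro t ht
        by_cases hts : t = s
        · -- one row is lost
          have h5 : (lnv S t).erase q.2 ⊆ lnv (S.erase q) t := by
            intro Y hY
            rw [Finset.mem_erase] at hY
            obtain ⟨hY1, hY2⟩ := hY
            rw [mem_lnv ht] at hY2 ⊢
            rwa [row_erase_ne hY1]
          have h6 := Finset.card_le_card h5
          have h7 : (lnv S t).card - 1 ≤ ((lnv S t).erase q.2).card := Finset.pred_card_le_card_erase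
          rw [hts] at h6 h7 ⊢
          omega
        · have h5 : lnv S t ⊆ lnv (S.erase q) t := by
            intro Y hY
            rw [mem_lnv ht] at hY ⊢
            by_cases hYq : Y = q.2
            · subst hYq
              rw [card_row_erase hqS]
              rw [hrow] at hY ⊢
              omega
            · rwa [row_erase_ne hYq]
          exact (h t ht).trans (Finset.card_le_card h5)
      obtain ⟨S', hS', hS''⟩ := ih (S.erase q) hcard hnew
      exact ⟨S', hS'.trans (Finset.erase_subset _ _), hS''⟩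

/-- Counting by rows. -/
theorem card_eq (S : Finset (ℤ × ℤ)) (B : ℕ) (hB : S.card ≤ B) :
    S.card = ∑ s ∈ Finset.range B, (lnv S (s + 1)).card := by
  have h1 : S.card = ∑ X ∈ S.image Prod.snd, (S.filter fun q => q.2 = X).card :=
    Finset.card_eq_sum_card_image Prod.snd S
  rw [h1]
  have h2 : ∀ s ∈ Finset.range B, (lnv S (s + 1)).card =
      ∑ X ∈ S.image Prod.snd, if s + 1 ≤ (S.filter fun q => q.2 = X).card then 1 else 0 := by
    intro s _
    unfold lnv
    rw [Finset.card_filter]
  rw [Finset.sum_congr rfl h2, Finset.sum_comm]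
  refine Finset.sum_congr rfl fun X _ => ?_
  rw [← Finset.card_filter]
  have h3 : (Finset.range B).filter (fun s => s + 1 ≤ (S.filter fun q => q.2 = X).card) =
      Finset.range (S.filter fun q => q.2 = X).card := by
    ext s
    simp only [Finset.mem_filter, Finset.mem_range]
    have h4 : (S.filter fun q => q.2 = X).card ≤ B :=
      (Finset.card_le_card (Finset.filter_subset _ _)).trans hB
    omega
  rw [h3, Finset.card_range]

theorem sum_sub (m B : ℕ) (hB : m ≤ B) : ∑ s ∈ Finset.range B, (m + 1 - (s + 1)) =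
    (m + 1).choose 2 := by
  induction m with
  | zero =>
    have : ∀ s ∈ Finset.range B, (0 + 1 - (s + 1)) = 0 := fun s _ => by omega
    rw [Finset.sum_congr rfl this]
    simp
  | succ m ih =>
    have h1 : ∀ s ∈ Finset.range B, (m + 1 + 1 - (s + 1)) =
        (m + 1 - (s + 1)) + if s < m + 1 then 1 else 0 := by
      intro s _
      split_ifs with h <;> omega
    rw [Finset.sum_congr rfl h1, Finset.sum_add_distrib, ih (by omega), ← Finset.card_filter]
    have h2 : (Finset.range B).filter (fun s => s < m + 1) = Finset.range (m + 1) := by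
      ext s
      simp only [Finset.mem_filter, Finset.mem_range]
      omega
    rw [h2, Finset.card_range, Nat.choose_succ_succ' (m + 1) 1, Nat.choose_one_right]
    ring

theorem t (hHOR : S_HOR) : S_HOD := by
  intro b M S h
  have hμ : ∀ s : ℕ, ∑ l, (M l + 1 - (s + 1)) ≤ ∑ l, (M l + 1 - s) := by
    intro s
    refine Finset.sum_le_sum fun l _ => ?_
    omega
  obtain ⟨S', hS', hS''⟩ := choose (fun s => ∑ l, (M l + 1 - s)) hμ S.card S rfl h
  refine ⟨S', hS', ?_, hHOR b M S' fun s hs => (hS'' s hs).le⟩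
  set B : ℕ := S'.card + ∑ l, M l with hB
  rw [card_eq S' B (by omega)]
  have h1 : ∀ s ∈ Finset.range B, (lnv S' (s + 1)).card = ∑ l, (M l + 1 - (s + 1)) :=
    fun s _ => hS'' (s + 1) (by omega)
  rw [Finset.sum_congr rfl h1, Finset.sum_comm]
  refine Finset.sum_congr rfl fun l _ => ?_
  refine sum_sub (M l) B ?_
  have h2 : M l ≤ ∑ l, M l := Finset.single_le_sum (fun _ _ => Nat.zero_le _) (Finset.mem_univ l)
  omega

end Pool.Agent.Helper40.Nag.HOD
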