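import Pool.Agent.Helper97.Nag.Goals

/-!
Packet NAG-NCT: the nearest centre and the gap.
-/

set_option autoImplicit false

noncomputable section

namespace Pool.Agent.Helper40.Nag.NCT

open Pool.Agent.Helper97.Nag

/-- the key inequality -/
theorem key (h δ a c : ℝ) (ha1 : -a ≤ δ) (ha2 : δ ≤ a) (hh : 2 * a < h) (hc : 1 ≤ c) :
    δ ^ 2 + h * (h - 2 * a) ≤ (δ + h * c) ^ 2 := by
  have ha0 : 0 ≤ a := by linarith
  have h0 : 0 < h := by linarith
  have e : (δ + h * c) ^ 2 = δ ^ 2 + h * (c * (h * c + 2 * δ)) := by ring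
  rw [e]
  have h1 : h - 2 * a ≤ h * c + 2 * δ := by nlinarith
  have h2 : h - 2 * a ≤ c * (h * c + 2 * δ) := by nlinarith
  have h3 : h * (h - 2 * a) ≤ h * (c * (h * c + 2 * δ)) := mul_le_mul_of_nonneg_left h2 h0.le
  linarith

theorem t : S_NCT := by
  intro r κ A kz hr hkz hκ l n hl h1 h2
  have hr0 : (0 : ℝ) < r := by exact_mod_cast hr
  have hκ0 : 0 < κ := by rw [hκ]; exact_mod_cast hkz
  set h : ℝ := κ / r with hh
  have h0 : 0 < h := div_pos hκ0 hr0
  have hrh : (r : ℝ) * h = κ := by rw [hh]; field_simp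
  set δ : ℝ := n - (A + (l + 1 / 2) * h) with hδ
  have d1 : -(h / 2) < δ := by rw [hδ]; linarith
  have d2 : δ < h / 2 := by rw [hδ]; linarith
  have d3 : 2 * |δ| < h := by
    have : |δ| < h / 2 := abs_lt.2 ⟨d1, d2⟩
    linarith
  refine ⟨h * (h - 2 * |δ|), mul_pos h0 (by linarith), ?_⟩
  intro l' n' hl' hdvd hne
  obtain ⟨b, hb⟩ := hdvd
  set c : ℤ := (l : ℤ) - l' - r * b with hc
  have e1 : (n' : ℝ) - (A + (l' + 1 / 2) * h) = δ + h * c := by
    have hb' : (n : ℝ) - n' = κ * b := by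
      rw [hκ]
      exact_mod_cast congrArg (fun z : ℤ => (z : ℝ)) hb
    have hn' : (n' : ℝ) = n - κ * b := by linarith
    rw [hn', hδ, hc, ← hrh]
    push_cast
    ring
  rw [e1]
  have hc0 : c ≠ 0 := by
    intro h3
    have h4 : (l : ℤ) - l' = r * b := by linarith
    have h5 : b = 0 := by
      by_contra hb0
      have h6 : (r : ℤ) ≤ |(r : ℤ) * b| := by
        rw [abs_mul]
        have h7 : 1 ≤ |b| := Int.one_le_abs hb0
        have h8 : |(r : ℤ)| = r := abs_of_nonneg (by positivity)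
        rw [h8]
        nlinarith
      rw [← h4] at h6
      have h9 : |(l : ℤ) - l'| < r := by
        rw [abs_lt]
        constructor <;> omega
      omega
    rw [h5, mul_zero] at h4
    rw [h5, mul_zero] at hb
    apply hne
    have h10 : l' = l := by omega
    have h11 : n' = n := by omega
    rw [h10, h11]
  rcases lt_or_gt_of_ne hc0 with h3 | h3
  · have h4 : (1 : ℝ) ≤ -(c : ℝ) := by
      have : (1 : ℤ) ≤ -c := by omega
      exact_mod_cast this
    have h5 := key h (-δ) |δ| (-(c : ℝ)) (by linarith [le_abs_self δ]) (neg_le_abs δ) d3 h4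
    nlinarith [h5]
  · have h4 : (1 : ℝ) ≤ (c : ℝ) := by
      have : (1 : ℤ) ≤ c := by omega
      exact_mod_cast this
    exact key h δ |δ| c (neg_abs_le δ) (le_abs_self δ) d3 h4

end Pool.Agent.Helper40.Nag.NCT
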